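import Pool.Agent.Helper71.JN.SheetD
import Pool.Agent.Helper94.JN.TRS

/-!
Project JN, row TRSK: `x` is algebraic over `K` (the proof of TRS by helper94, for `HK`).
-/

set_option autoImplicit false

namespace Pool.Agent.Helper27.JN

open Polynomial Pool.Agent.Helper71.JN Pool.Agent.Helper94.JN

section trs

variable {F Ω : Type} [Field F] [Field Ω] [CharZero Ω] [Algebra F Ω] {I : Type} [Fintype I] {r : ℕ}

theorem q2_sameK (D : SSF F Ω I r) {J : Finset I} {α β : ℝ} {x y : Ω} {R R' : I → Ω}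
    (H : HK D J α β x y R R') (hx : ¬ IsIntegral D.K x) (q0 q1 q2 : D.K)
    (hy : y = q0 + q1 * x + q2 * x ^ 2) : ∀ i ∈ J, ∀ j ∈ J, D.nu j (q2 : Ω) = D.nu i (q2 : Ω) := by
  intro i hi j hj
  obtain ⟨γ, gx, gy, gK, gν⟩ := H.gal i hi j hj
  rw [gν]
  have h1 : γ y = γ (q0 : Ω) + γ (q1 : Ω) * x + γ (q2 : Ω) * x ^ 2 := by
    rw [hy, map_add, map_add, map_mul, map_mul, map_pow, gx]
  rw [gy] at h1
  have h2 := quad_zero D hx (⟨γ q0, gK _ q0.2⟩ - q0) (⟨γ q1, gK _ q1.2⟩ - q1)
    (⟨γ q2, gK _ q2.2⟩ - q2) (by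
      show (γ (q0 : Ω) - (q0 : Ω)) + (γ (q1 : Ω) - (q1 : Ω)) * x
        + (γ (q2 : Ω) - (q2 : Ω)) * x ^ 2 = 0
      linear_combination hy - h1)
  have h3 := congrArg (fun z : D.K => (z : Ω)) (sub_eq_zero.1 h2.2.2)
  rw [show γ (q2 : Ω) = (q2 : Ω) from h3]

theorem step1K (hA : ST_APXK) (hG : ST_GSK) (D : SSF F Ω I r) {J : Finset I} {α β : ℝ} {x y : Ω}
    {R R' : I → Ω} (H : HK D J α β x y R R') (hx : ¬ IsIntegral D.K x) (q0 q1 q2 : D.K)
    (hy : y = q0 + q1 * x + q2 * x ^ 2) : ∀ i ∈ J, D.nu i (q2 : Ω) = Real.exp (-1) := by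
  classical
  obtain ⟨hQ, hR', hY⟩ := hA F Ω I r D J α β x y R R' H
  have hsame := q2_sameK D H hx q0 q1 q2 hy
  have h38 : ∀ i, D.nu i (3 / 8 : Ω) = 1 := by
    intro i
    have := hQ i (3 / 8) (by norm_num)
    push_cast at this
    exact this
  by_contra hne
  push Not at hne
  obtain ⟨i0, hi0, hne⟩ := hne
  have hall : ∀ i ∈ J, D.nu i (q2 : Ω) ≠ Real.exp (-1) := fun i hi => by
    rw [hsame i0 hi0 i hi]; exact hne
  have hRp : ∀ i ∈ J, D.nu i (3 / 8 * R' i) = Real.exp (-1) := fun i hi => by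
    rw [map_mul, h38, one_mul, hR' i hi]
  have hlow : ∀ i ∈ J, Real.exp (-1) ≤ D.nu i ((q2 : Ω) - 3 / 8 * R' i) := by
    intro i hi
    by_contra hlt
    push Not at hlt
    refine hall i hi (le_antisymm ?_ ?_)
    · have h := D.ult i ((q2 : Ω) - 3 / 8 * R' i) (3 / 8 * R' i)
      rw [sub_add_cancel, hRp i hi] at h
      exact h.trans (max_le hlt.le le_rfl)
    · have h := D.ult i (q2 : Ω) (-((q2 : Ω) - 3 / 8 * R' i))
      rw [show (q2 : Ω) + -((q2 : Ω) - 3 / 8 * R' i) = 3 / 8 * R' i by ring, hRp i hi,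
        AbsoluteValue.map_neg] at h
      rcases le_max_iff.1 h with h | h
      · exact h
      · exact absurd h (not_le.2 hlt)
  -- elements of `K`
  have hk : ∀ i, ∃ ρ ρ' : D.K, i ∈ J → (ρ : Ω) = R i ∧ (ρ' : Ω) = R' i := by
    intro i
    by_cases hi : i ∈ J
    · exact ⟨⟨R i, H.RR i hi⟩, ⟨R' i, H.RR' i hi⟩, fun _ => ⟨rfl, rfl⟩⟩
    · exact ⟨0, 0, fun h => absurd h hi⟩
  choose ρ ρ' hρ using hk
  have c32 : (((3 / 2 : D.K)) : Ω) = 3 / 2 := by push_cast; rfl
  have c38 : (((3 / 8 : D.K)) : Ω) = 3 / 8 := by push_cast; rfl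
  let G : I → ℕ → (D.K)[X] := fun i k => if i ∈ J then
    (match k with
      | 0 => 1
      | 1 => X - C (ρ i ^ 2)
      | _ => C (q2 - 3 / 8 * ρ' i) * X ^ 2 + C (q1 - 3 / 2 * ρ i + 2 * (3 / 8) * ρ' i * ρ i ^ 2) * X
          + C (q0 - ρ i ^ 3 + 3 / 2 * ρ i * ρ i ^ 2 - 3 / 8 * ρ' i * ρ i ^ 4)) else X ^ k
  let g : I → ℕ → D.K := fun i k => if i ∈ J then
    (match k with
      | 0 => 1
      | 1 => 1
      | _ => q2 - 3 / 8 * ρ' i) else 1
  have hTJ : ∀ i ∈ J, D.nu i (aeval x (G i (0 : Fin 3))) / D.nu i ((g i (0 : Fin 3) : D.K) : Ω) *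
      (D.nu i (aeval x (G i (1 : Fin 3))) / D.nu i ((g i (1 : Fin 3) : D.K) : Ω)) *
      (D.nu i (aeval x (G i (2 : Fin 3))) / D.nu i ((g i (2 : Fin 3) : D.K) : Ω)) < 1 := by
    intro i hi
    have e0 : aeval x (G i (0 : Fin 3)) = 1 := by simp [G, hi]
    have e1 : aeval x (G i (1 : Fin 3)) = x - R i ^ 2 := by
      simp only [G, hi, if_true, Fin.val_one, map_sub, aeval_X, aeval_C]
      rw [← (hρ i hi).1]
      rfl
    have e2 : aeval x (G i (2 : Fin 3)) = y - Y2 x (R i) (R' i) := by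
      have h : aeval x (G i (2 : Fin 3)) = (((q2 - 3 / 8 * ρ' i : D.K)) : Ω) * x ^ 2 +
          (((q1 - 3 / 2 * ρ i + 2 * (3 / 8) * ρ' i * ρ i ^ 2 : D.K)) : Ω) * x +
          (((q0 - ρ i ^ 3 + 3 / 2 * ρ i * ρ i ^ 2 - 3 / 8 * ρ' i * ρ i ^ 4 : D.K)) : Ω) := by
        simp only [G, hi, if_true, Fin.val_two, map_add, map_mul, map_pow, aeval_X, aeval_C]
        rfl
      rw [h]
      push_cast
      rw [(hρ i hi).1, (hρ i hi).2, hy]
      unfold Y2
      have k32 : ((((3 : D.K)) : Ω)) = 3 := rfl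
      have k2 : ((((2 : D.K)) : Ω)) = 2 := rfl
      have k8 : ((((8 : D.K)) : Ω)) = 8 := rfl
      simp only [k32, k2, k8]
      ring
    have g0 : ((g i (0 : Fin 3) : D.K) : Ω) = 1 := by
      simp only [g, hi, if_true]
      rfl
    have g1 : ((g i (1 : Fin 3) : D.K) : Ω) = 1 := by
      simp only [g, hi, if_true]
      rfl
    have g2 : ((g i (2 : Fin 3) : D.K) : Ω) = (q2 : Ω) - 3 / 8 * R' i := by
      simp only [g, hi, if_true]
      rw [← (hρ i hi).2]
      rfl
    rw [e0, e1, e2, g0, g1, g2, map_one, div_one, div_one, one_mul]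
    have b1 := H.s2 i hi
    have b2 := hY i hi
    have b3 := hlow i hi
    calc D.nu i (x - R i ^ 2) * (D.nu i (y - Y2 x (R i) (R' i)) /
          D.nu i ((q2 : Ω) - 3 / 8 * R' i))
        ≤ Real.exp β * (Real.exp (max α (3 * β) - 3) / Real.exp (-1)) := by
          gcongr
      _ = Real.exp (β + (max α (3 * β) - 3 - (-1))) := by
          rw [← Real.exp_sub, ← Real.exp_add]
      _ < 1 := by
          rw [Real.exp_lt_one_iff]
          have h1 := H.hα
          have h2 := H.hβ
          have h3 : max α (3 * β) < 3 / 2 := max_lt (by linarith) (by linarith)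
          linarith
  have main := gsk_app hG D x hx (XP D.K) 3 ?_ G g ?_ ?_ ?_
  · refine absurd main (not_le.2 (prod_lt _ ?_ ?_ i0 ?_))
    · intro i
      exact Finset.prod_nonneg fun k _ => div_nonneg (apply_nonneg _ _) (apply_nonneg _ _)
    · intro i
      rw [Fin.prod_univ_three]
      by_cases hi : i ∈ J
      · exact (hTJ i hi).le
      · simp only [G, g, hi, if_false, Fin.val_zero, Fin.val_one, Fin.val_two, pow_zero, pow_one,
          map_one, aeval_X, map_pow]
        have h1 : D.nu i (((1 : D.K)) : Ω) = 1 := by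
          rw [show (((1 : D.K)) : Ω) = 1 from rfl, map_one]
        simp only [h1, div_one, one_mul]
        exact mul_le_one₀ (H.fx i hi) (by positivity) (pow_le_one₀ (apply_nonneg _ _) (H.fx i hi))
    · rw [Fin.prod_univ_three]
      exact hTJ i0 hi0
  · intro k hk
    rw [XP_apply, map_pow, aeval_X]
    exact D.O.pow_mem H.xO k
  · intro i k hk
    by_cases hi : i ∈ J
    · interval_cases k
      · simp [g, hi]
      · simp [g, hi]
      · simp only [g, hi, if_true]
        intro h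
        have h1 := congrArg (fun z : D.K => (z : Ω)) h
        have h2 : (q2 : Ω) - 3 / 8 * R' i = 0 := by
          rw [← (hρ i hi).2]
          exact h1
        have h3 := hlow i hi
        rw [h2, map_zero] at h3
        exact absurd h3 (not_le.2 (Real.exp_pos _))
    · simp [g, hi]
  · intro i k hk
    by_cases hi : i ∈ J
    · interval_cases k
      · simp [G, hi]
      · simp only [G, hi, if_true]
        exact natDegree_X_sub_C_le _
      · simp only [G, hi, if_true]
        exact natDegree_quadratic_le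
    · simp only [G, hi, if_false]
      exact (natDegree_X_pow_le k)
  · intro i k hk
    rw [XP_apply]
    by_cases hi : i ∈ J
    · interval_cases k
      · simp [G, g, hi]
      · simp only [G, g, hi, if_true]
        rw [coeff_sub, coeff_X_one, coeff_C_of_ne_zero one_ne_zero, pow_one, coeff_X_one, sub_zero,
          one_mul]
      · simp only [G, g, hi, if_true, coeff_add, coeff_C_mul, coeff_X_pow, coeff_X, coeff_C]
        norm_num
    · simp [G, g, hi]

theorem sum_formula (β : ℝ) (m : ℕ) : ∑ k ∈ Finset.range (2 * (m + 1)),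
    (β * k - ((k / 2 : ℕ) : ℝ)) = (m + 1) * ((2 * m + 1) * β - m) := by
  induction m with
  | zero => simp [Finset.sum_range_succ]
  | succ m ih =>
    rw [show 2 * (m + 1 + 1) = 2 * (m + 1) + 1 + 1 by ring, Finset.sum_range_succ,
      Finset.sum_range_succ, ih]
    have h1 : (2 * (m + 1)) / 2 = m + 1 := by omega
    have h2 : (2 * (m + 1) + 1) / 2 = m + 1 := by omega
    rw [h1, h2]
    push_cast
    ring

theorem step2K (hG : ST_GSK) (D : SSF F Ω I r) {J : Finset I} {α β : ℝ} {x y : Ω}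
    {R R' : I → Ω} (H : HK D J α β x y R R') (hx : ¬ IsIntegral D.K x) (q0 q1 q2 : D.K)
    (hy : y = q0 + q1 * x + q2 * x ^ 2) (hq : ∀ i ∈ J, D.nu i (q2 : Ω) = Real.exp (-1)) :
    False := by
  classical
  obtain ⟨i0, hi0⟩ := H.hJ
  have hq2 : q2 ≠ 0 := by
    rintro rfl
    have h := hq i0 hi0
    rw [show (((0 : D.K)) : Ω) = 0 from rfl, map_zero] at h
    exact absurd h.symm (Real.exp_pos _).ne'
  obtain ⟨m, hm⟩ := exists_nat_gt (β / (1 - 2 * β))
  have hβ := H.hβ
  have hm' : (2 * m + 1) * β - m < 0 := by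
    rw [div_lt_iff₀ (by linarith)] at hm
    linarith
  have hk : ∀ i, ∃ ρ : D.K, i ∈ J → (ρ : Ω) = R i := by
    intro i
    by_cases hi : i ∈ J
    · exact ⟨⟨R i, H.RR i hi⟩, fun _ => rfl⟩
    · exact ⟨0, fun h => absurd h hi⟩
  choose ρ hρ using hk
  let Y : (D.K)[X] := C q2 * X ^ 2 + C q1 * X + C q0
  have hYd : Y.degree = 2 := degree_quadratic hq2
  let P : Polynomial.Sequence D.K := ⟨fun k => X ^ (k % 2) * Y ^ (k / 2), fun k => by
    rw [degree_mul, degree_X_pow, degree_pow, hYd, nsmul_eq_mul]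
    norm_cast
    exact Nat.mod_add_div' k 2⟩
  have hP : ∀ k, P k = X ^ (k % 2) * Y ^ (k / 2) := fun k => rfl
  have hY : aeval x Y = y := by
    simp only [Y, map_add, map_mul, map_pow, aeval_X, aeval_C]
    rw [hy]
    show (q2 : Ω) * x ^ 2 + (q1 : Ω) * x + (q0 : Ω) = _
    ring
  have hPe : ∀ k, aeval x (P k) = x ^ (k % 2) * y ^ (k / 2) := by
    intro k
    rw [hP, map_mul, map_pow, map_pow, aeval_X, hY]
  have hPc : ∀ k, (P k).coeff k = q2 ^ (k / 2) := by
    intro k
    have h1 : (P k).coeff (P k).natDegree = q2 ^ (k / 2) := by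
      rw [coeff_natDegree, hP, leadingCoeff_mul, leadingCoeff_X_pow, leadingCoeff_pow, one_mul,
        leadingCoeff_quadratic hq2]
    rwa [P.natDegree_eq] at h1
  let G : I → ℕ → (D.K)[X] := fun i k => if i ∈ J then (X - C (ρ i ^ 2)) ^ k else P k
  let g : I → ℕ → D.K := fun i k => if i ∈ J then (q2 ^ (k / 2))⁻¹ else 1
  have hTJ : ∀ i ∈ J, ∏ k : Fin (2 * (m + 1)), D.nu i (aeval x (G i k)) /
      D.nu i ((g i k : D.K) : Ω) < 1 := by
    intro i hi
    have e1 : ∀ k, aeval x (G i k) = (x - R i ^ 2) ^ k := by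
      intro k
      simp only [G, hi, if_true, map_pow, map_sub, aeval_X, aeval_C]
      rw [← hρ i hi]
      rfl
    have e2 : ∀ k, ((g i k : D.K) : Ω) = ((q2 : Ω) ^ (k / 2))⁻¹ := by
      intro k
      simp only [g, hi, if_true]
      rfl
    rw [← Finset.prod_range (fun k => D.nu i (aeval x (G i k)) / D.nu i ((g i k : D.K) : Ω))]
    calc ∏ k ∈ Finset.range (2 * (m + 1)), D.nu i (aeval x (G i k)) / D.nu i ((g i k : D.K) : Ω)
        ≤ ∏ k ∈ Finset.range (2 * (m + 1)), Real.exp (β * k - ((k / 2 : ℕ) : ℝ)) := by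
          refine Finset.prod_le_prod (fun k _ => div_nonneg (apply_nonneg _ _) (apply_nonneg _ _))
            fun k _ => ?_
          rw [e1, e2, map_pow, map_inv₀, map_pow, hq i hi, div_inv_eq_mul, ← Real.exp_nat_mul]
          calc D.nu i (x - R i ^ 2) ^ k * Real.exp (((k / 2 : ℕ) : ℝ) * -1)
              ≤ Real.exp β ^ k * Real.exp (((k / 2 : ℕ) : ℝ) * -1) := by
                gcongr
                exact H.s2 i hi
            _ = _ := by
                rw [← Real.exp_nat_mul, ← Real.exp_add]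
                congr 1
                ring
      _ = Real.exp ((m + 1) * ((2 * m + 1) * β - m)) := by
          rw [← Real.exp_sum, sum_formula]
      _ < 1 := by
          rw [Real.exp_lt_one_iff]
          exact mul_neg_of_pos_of_neg (by positivity) hm'
  have main := gsk_app hG D x hx P (2 * (m + 1)) ?_ G g ?_ ?_ ?_
  · refine absurd main (not_le.2 (prod_lt _ ?_ ?_ i0 (hTJ i0 hi0)))
    · intro i
      exact Finset.prod_nonneg fun k _ => div_nonneg (apply_nonneg _ _) (apply_nonneg _ _)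
    · intro i
      by_cases hi : i ∈ J
      · exact (hTJ i hi).le
      · refine Finset.prod_le_one (fun k _ => div_nonneg (apply_nonneg _ _) (apply_nonneg _ _))
          fun k _ => ?_
        simp only [G, g, hi, if_false]
        rw [hPe, show (((1 : D.K)) : Ω) = 1 from rfl, map_one, div_one, map_mul, map_pow, map_pow]
        exact mul_le_one₀ (pow_le_one₀ (apply_nonneg _ _) (H.fx i hi)) (by positivity)
          (pow_le_one₀ (apply_nonneg _ _) (H.fy i hi))
  · intro k hk
    rw [hPe]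
    exact D.O.mul_mem (D.O.pow_mem H.xO _) (D.O.pow_mem H.yO _)
  · intro i k hk
    by_cases hi : i ∈ J
    · simp only [g, hi, if_true]
      exact inv_ne_zero (pow_ne_zero _ hq2)
    · simp [g, hi]
  · intro i k hk
    by_cases hi : i ∈ J
    · simp only [G, hi, if_true]
      rw [natDegree_pow, natDegree_X_sub_C, mul_one]
    · simp only [G, hi, if_false]
      rw [P.natDegree_eq]
  · intro i k hk
    by_cases hi : i ∈ J
    · simp only [G, g, hi, if_true]
      rw [hPc, inv_mul_cancel₀ (pow_ne_zero _ hq2)]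
      have h1 := ((monic_X_sub_C (ρ i ^ 2)).pow k).coeff_natDegree
      rwa [natDegree_pow, natDegree_X_sub_C, mul_one] at h1
    · simp only [G, g, hi, if_false, one_mul]

theorem TRSK (hR : ST_REL4K) (hA : ST_APXK) (hG : ST_GSK) : ST_TRSK := by
  intro F Ω _ _ _ _ I _ r D J α β x y R R' H
  by_contra hx
  obtain ⟨a, b, c, d, hne, h⟩ := hR F Ω I r D J α β x y R R' H
  have hd : d ≠ 0 := by
    rintro rfl
    have h1 := quad_zero D hx a b c (by
      rw [show (((0 : D.K)) : Ω) = 0 from rfl] at h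
      linear_combination h)
    exact hne ⟨h1.1, h1.2.1, h1.2.2, rfl⟩
  have hd' : (d : Ω) ≠ 0 := fun h => hd (Subtype.ext h)
  have hy : y = ((-a / d : D.K) : Ω) + ((-b / d : D.K) : Ω) * x + ((-c / d : D.K) : Ω) * x ^ 2 := by
    push_cast
    field_simp
    linear_combination h
  exact step2K hG D H hx _ _ _ hy (step1K hA hG D H hx _ _ _ hy)

end trs

end Pool.Agent.Helper27.JN
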