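import Pool.Agent.Helper71.JN.SheetD
import Pool.Agent.Helper27.JN.YKX

/-!
Project JN, row YKXK: `y` is a polynomial in `x` over `K`.
-/

set_option autoImplicit false

namespace Pool.Agent.Helper27.JN

open Pool.Agent.Helper71.JN Polynomial

/-- (YKXK) -/
theorem YKXK (hREL4 : ST_REL4K) (hAPX : ST_APXK) (hGSK : ST_GSK) : ST_YKXK := by
  intro F Ω _ _ _ _ I _ r D J α β x y R R' H
  obtain ⟨a, b, c, d, hne, h0⟩ := hREL4 F Ω I r D J α β x y R R' H
  obtain ⟨-, -, hY⟩ := hAPX F Ω I r D J α β x y R R' H
  by_cases hd : d = 0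
  swap
  · -- `y` is a combination of `1, x, x ^ 2`
    refine ⟨C (-a / d) + C (-b / d) * X + C (-c / d) * X ^ 2, ?_⟩
    have hd' : (d : Ω) ≠ 0 := fun h => hd (Subtype.ext h)
    have e1 : aeval x (C (-a / d) + C (-b / d) * X + C (-c / d) * X ^ 2 : Polynomial D.K)
        = ((-a / d : D.K) : Ω) + ((-b / d : D.K) : Ω) * x + ((-c / d : D.K) : Ω) * x ^ 2 := by
      simp
    rw [e1]
    push_cast
    field_simp
    linear_combination -h0
  subst hd
  have h1 : (a : Ω) + (b : Ω) * x + (c : Ω) * x ^ 2 = 0 := by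
    simpa using h0
  have hxi : IsIntegral D.K x := by
    rw [← isAlgebraic_iff_isIntegral]
    refine ⟨C a + C b * X + C c * X ^ 2, ?_, ?_⟩
    · intro hz
      refine hne ⟨?_, ?_, ?_, rfl⟩
      · have := congrArg (fun p => Polynomial.coeff p 0) hz
        simpa [coeff_X, coeff_C] using this
      · have := congrArg (fun p => Polynomial.coeff p 1) hz
        simpa [coeff_X, coeff_C] using this
      · have := congrArg (fun p => Polynomial.coeff p 2) hz
        simpa [coeff_X, coeff_C] using this
    · simpa using h1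
  by_contra hno
  have hyn : y ∉ IntermediateField.adjoin D.K {x} := fun h => hno (exists_aeval hxi h)
  have hxm : x ∈ IntermediateField.adjoin D.K {x} :=
    IntermediateField.mem_adjoin_simple_self D.K x
  have hKm : ∀ z : D.K, (z : Ω) ∈ IntermediateField.adjoin D.K {x} := fun z =>
    (IntermediateField.adjoin D.K {x}).algebraMap_mem z
  have h2 : (2 : Ω) ∈ D.K := ofNat_mem D.K 2
  have h3 : (3 : Ω) ∈ D.K := ofNat_mem D.K 3
  have h8 : (8 : Ω) ∈ D.K := ofNat_mem D.K 8
  have hβ := H.hβ
  have hm : max α (3 * β) < 3 / 2 := max_lt (by linarith [H.hα]) (by linarith)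
  by_cases hxK : x ∈ D.K
  · -- `x` in `K`
    have hli : LinearIndependent D.K ![1, y] := by
      rw [LinearIndependent.pair_iff]
      intro s t hst
      have hst' : (s : Ω) + (t : Ω) * y = 0 := by
        simpa [Algebra.smul_def] using hst
      have ht : t = 0 := by
        by_contra ht
        have ht' : (t : Ω) ≠ 0 := fun h => ht (Subtype.ext h)
        have e1 : y = -(s : Ω) / t := by
          field_simp
          linear_combination hst'
        rw [e1] at hyn
        exact hyn (div_mem (neg_mem (hKm s)) (hKm t))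
      subst ht
      exact ⟨Subtype.ext (by simpa using hst'), rfl⟩
    refine gsk_absurd hGSK D J H.hJ 2 ![1, y] (fun i => ![1, y - Y2 x (R i) (R' i)])
      ![0, max α (3 * β) - 3] ?_ hli ?_ ?_ ?_ ?_
    · intro k
      fin_cases k
      · exact D.O.one_mem
      · exact H.yO
    · intro i hi k
      have hR : R i ∈ D.K := H.RR i hi
      have hR' : R' i ∈ D.K := H.RR' i hi
      have m0 : (1 : Ω) ∈ (![1, y] '' {l : Fin 2 | l < 1}) := ⟨0, by decide, rfl⟩
      fin_cases k
      · simp
      · have hYK : -Y2 x (R i) (R' i) ∈ D.K := by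
          refine neg_mem ?_
          unfold Y2
          exact add_mem (add_mem (pow_mem hR 3) (mul_mem (mul_mem (div_mem h3 h2) hR)
            (sub_mem hxK (pow_mem hR 2)))) (mul_mem (mul_mem (div_mem h3 h8) hR')
              (pow_mem (sub_mem hxK (pow_mem hR 2)) 2))
        have h := mul_mem_span D.K hYK m0
        have e1 : (y - Y2 x (R i) (R' i)) - y = -Y2 x (R i) (R' i) * 1 := by ring
        exact e1 ▸ h
    · intro i hi k
      fin_cases k
      · simp
      · exact hY i hi
    · intro i hi k
      fin_cases k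
      · simp
      · exact H.fy i hi
    · rw [Fin.sum_univ_two]
      change 0 + (max α (3 * β) - 3) < 0
      linarith
  · -- `x` of degree 2
    have hc : c ≠ 0 := by
      intro hc
      subst hc
      have h1' : (a : Ω) + (b : Ω) * x = 0 := by simpa using h1
      by_cases hb : b = 0
      · subst hb
        exact hne ⟨Subtype.ext (by simpa using h1'), rfl, rfl, rfl⟩
      · have hb' : (b : Ω) ≠ 0 := fun h => hb (Subtype.ext h)
        have e1 : x = -(a : Ω) / b := by
          field_simp
          linear_combination h1'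
        rw [e1] at hxK
        exact hxK (div_mem (neg_mem a.2) b.2)
    have hc' : (c : Ω) ≠ 0 := fun h => hc (Subtype.ext h)
    obtain ⟨p, hp, q, hq, hx2⟩ : ∃ p ∈ D.K, ∃ q ∈ D.K, x ^ 2 = p + q * x := by
      refine ⟨-(a : Ω) / c, div_mem (neg_mem a.2) c.2, -(b : Ω) / c, div_mem (neg_mem b.2) c.2, ?_⟩
      field_simp
      linear_combination h1
    have hpair : ∀ s t : D.K, (s : Ω) + (t : Ω) * x = 0 → s = 0 ∧ t = 0 := by
      intro s t hst
      have ht : t = 0 := by
        by_contra ht
        have ht' : (t : Ω) ≠ 0 := fun h => ht (Subtype.ext h)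
        have e1 : x = -(s : Ω) / t := by
          field_simp
          linear_combination hst
        rw [e1] at hxK
        exact hxK (div_mem (neg_mem s.2) t.2)
      subst ht
      exact ⟨Subtype.ext (by simpa using hst), rfl⟩
    have hli : LinearIndependent D.K ![1, x, y, x * y] := by
      rw [Fintype.linearIndependent_iff]
      intro g hg
      have h0 : (g 0 : Ω) + (g 1 : Ω) * x + (g 2 : Ω) * y + (g 3 : Ω) * (x * y) = 0 := by
        rw [Fin.sum_univ_four] at hg
        simpa [Algebra.smul_def] using hg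
      by_cases hz : (g 2 : Ω) + (g 3 : Ω) * x = 0
      · obtain ⟨a2, a3⟩ := hpair _ _ hz
        have h01 : (g 0 : Ω) + (g 1 : Ω) * x = 0 := by linear_combination h0 - y * hz
        obtain ⟨a0, a1⟩ := hpair _ _ h01
        intro i
        fin_cases i
        · exact a0
        · exact a1
        · exact a2
        · exact a3
      · exfalso
        have e1 : y = -((g 0 : Ω) + (g 1 : Ω) * x) / ((g 2 : Ω) + (g 3 : Ω) * x) := by
          rw [eq_div_iff hz]
          linear_combination h0
        rw [e1] at hyn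
        exact hyn (div_mem (neg_mem (add_mem (hKm _) (mul_mem (hKm _) hxm)))
          (add_mem (hKm _) (mul_mem (hKm _) hxm)))
    refine gsk_absurd hGSK D J H.hJ 4 ![1, x, y, x * y]
      (fun i => ![1, x - R i ^ 2, y - Y2 x (R i) (R' i),
        (x - R i ^ 2) * (y - Y2 x (R i) (R' i))])
      ![0, β, max α (3 * β) - 3, β + (max α (3 * β) - 3)] ?_ hli ?_ ?_ ?_ ?_
    · intro k
      fin_cases k
      · exact D.O.one_mem
      · exact H.xO
      · exact H.yO
      · exact mul_mem H.xO H.yO
    · intro i hi k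
      have hR : R i ∈ D.K := H.RR i hi
      have hR' : R' i ∈ D.K := H.RR' i hi
      have m0 : (1 : Ω) ∈ (![1, x, y, x * y] '' {l : Fin 4 | l < 1}) := ⟨0, by decide, rfl⟩
      have m1 : (1 : Ω) ∈ (![1, x, y, x * y] '' {l : Fin 4 | l < 2}) := ⟨0, by decide, rfl⟩
      have m2 : x ∈ (![1, x, y, x * y] '' {l : Fin 4 | l < 2}) := ⟨1, by decide, rfl⟩
      have m3 : (1 : Ω) ∈ (![1, x, y, x * y] '' {l : Fin 4 | l < 3}) := ⟨0, by decide, rfl⟩
      have m4 : x ∈ (![1, x, y, x * y] '' {l : Fin 4 | l < 3}) := ⟨1, by decide, rfl⟩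
      have m5 : y ∈ (![1, x, y, x * y] '' {l : Fin 4 | l < 3}) := ⟨2, by decide, rfl⟩
      obtain ⟨A, hA, B, hB, hY2⟩ : ∃ A ∈ D.K, ∃ B ∈ D.K, Y2 x (R i) (R' i) = A * 1 + B * x := by
        refine ⟨(R i ^ 3 - 3 / 2 * R i ^ 3 + 3 / 8 * R' i * R i ^ 4) + 3 / 8 * R' i * p, ?_,
          (3 / 2 * R i - 3 / 8 * R' i * (2 * R i ^ 2)) + 3 / 8 * R' i * q, ?_, ?_⟩
        · exact add_mem (add_mem (sub_mem (pow_mem hR 3) (mul_mem (div_mem h3 h2) (pow_mem hR 3)))
            (mul_mem (mul_mem (div_mem h3 h8) hR') (pow_mem hR 4)))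
            (mul_mem (mul_mem (div_mem h3 h8) hR') hp)
        · exact add_mem (sub_mem (mul_mem (div_mem h3 h2) hR)
            (mul_mem (mul_mem (div_mem h3 h8) hR') (mul_mem h2 (pow_mem hR 2))))
            (mul_mem (mul_mem (div_mem h3 h8) hR') hq)
        · rw [Y2_expand, hx2]
          ring
      fin_cases k
      · simp
      · have h := mul_mem_span D.K (neg_mem (pow_mem hR 2)) m0
        have e1 : (x - R i ^ 2) - x = -R i ^ 2 * 1 := by ring
        exact e1 ▸ h
      · have h := Submodule.neg_mem _ (Submodule.add_mem _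
          (mul_mem_span D.K hA m1) (mul_mem_span D.K hB m2))
        rw [← hY2] at h
        have e1 : (y - Y2 x (R i) (R' i)) - y = -Y2 x (R i) (R' i) := by ring
        exact e1 ▸ h
      · have hA' : -(B * p - R i ^ 2 * A) ∈ D.K :=
          neg_mem (sub_mem (mul_mem hB hp) (mul_mem (pow_mem hR 2) hA))
        have hB' : -(A + B * q - R i ^ 2 * B) ∈ D.K :=
          neg_mem (sub_mem (add_mem hA (mul_mem hB hq)) (mul_mem (pow_mem hR 2) hB))
        have h := Submodule.add_mem _ (Submodule.add_mem _
          (mul_mem_span D.K hA' m3) (mul_mem_span D.K hB' m4))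
          (mul_mem_span D.K (neg_mem (pow_mem hR 2)) m5)
        have e1 : (x - R i ^ 2) * (y - Y2 x (R i) (R' i)) - x * y
            = -(B * p - R i ^ 2 * A) * 1 + -(A + B * q - R i ^ 2 * B) * x + -R i ^ 2 * y := by
          rw [hY2]
          linear_combination (-B) * hx2
        exact e1 ▸ h
    · intro i hi k
      fin_cases k
      · simp
      · exact H.s2 i hi
      · exact hY i hi
      · change D.nu i ((x - R i ^ 2) * (y - Y2 x (R i) (R' i)))
          ≤ Real.exp (β + (max α (3 * β) - 3))
        rw [map_mul, Real.exp_add]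
        exact mul_le_mul (H.s2 i hi) (hY i hi) (apply_nonneg _ _) (Real.exp_pos _).le
    · intro i hi k
      fin_cases k
      · simp
      · exact H.fx i hi
      · exact H.fy i hi
      · change D.nu i (x * y) ≤ 1
        rw [map_mul]
        exact mul_le_one₀ (H.fx i hi) (apply_nonneg _ _) (H.fy i hi)
    · rw [Fin.sum_univ_four]
      change 0 + β + (max α (3 * β) - 3) + (β + (max α (3 * β) - 3)) < 0
      linarith

end Pool.Agent.Helper27.JN
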