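import Pool.Agent.Helper71.JN.SheetC
import Pool.Agent.Helper45.SUBK.FINK

/-!
Project JN, row FINJ: the final theorem, from the theorems over number fields.
-/

set_option autoImplicit false

namespace Pool.Agent.Helper27.JN

open Filter Finset Pool.Agent.Helper70.SUB Pool.Agent.Helper77.SUBK Pool.Agent.Helper70.SUBL
  Pool.Agent.Helper70.SUBW Pool.Agent.Helper71.JN

theorem pow_le_int {κ κ' : ℝ} (hκ : 0 < κ) (h : κ ≤ κ') (x : ℤ) :
    |(x : ℝ)| ^ κ ≤ |(x : ℝ)| ^ κ' := by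
  rcases eq_or_ne x 0 with h0 | h0
  · subst h0
    rw [Int.cast_zero, abs_zero, Real.zero_rpow hκ.ne', Real.zero_rpow (hκ.trans_le h).ne']
  · have h1 : (1 : ℤ) ≤ |x| := Int.one_le_abs h0
    have h2 : (1 : ℝ) ≤ |(x : ℝ)| := by exact_mod_cast h1
    exact Real.rpow_le_rpow_of_exponent_le h2 h

/-- roots of monomials -/
theorem mon_root {M : Type} [Field M] (φ : M →+* ℂ) {k : ℕ} (g : Fin k → ℂ) (ρ : Fin k → M)
    (hρ : ∀ l, φ (ρ l) ^ 6 = g l) (m : ℤ) (j : ℕ) (hmj : m * j = 6) (e : Fin k → ℤ) :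
    φ (∏ l, ρ l ^ (m * e l)) ^ j = ∏ l, g l ^ e l := by
  rw [map_prod, ← Finset.prod_pow]
  refine Finset.prod_congr rfl fun l _ => ?_
  rw [map_zpow₀, ← zpow_natCast, ← zpow_mul, ← hρ l, ← zpow_natCast, ← zpow_mul]
  congr 1
  push_cast
  linear_combination (e l) * hmj

/-- exponents of monomials -/
theorem he_mon {M : Type} [Field M] {k : ℕ} (ρ : Fin k → M) (m : ℤ) (hm0 : 0 ≤ m) (hm : m ≤ 6)
    (e : Fin k → ℤ) {B L : ℝ} (h : ∀ l, |(e l : ℝ)| ≤ B * L) :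
    HE ρ (6 * B * L) (∏ l, ρ l ^ (m * e l)) := by
  refine ⟨fun l => m * e l, fun l => ?_, rfl⟩
  push_cast
  rw [abs_mul]
  have h1 : |(m : ℝ)| ≤ 6 := by
    rw [abs_of_nonneg (by exact_mod_cast hm0)]
    exact_mod_cast hm
  calc |(m : ℝ)| * |(e l : ℝ)| ≤ 6 * (B * L) :=
        mul_le_mul h1 (h l) (abs_nonneg _) (by norm_num)
    _ = 6 * B * L := by ring

/-- (FINJ) -/
theorem FINJ (hTB : ST_T1BJ) (hTC : ST_T1CJ) (hSVB : ST_SVB) : ST_FINJ := by
  classical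
  intro k g t ε δ η B hg hε hδ hδ1 hη
  have hfg : (Subgroup.closure (Set.range fun l => Units.mk0 (g l) (hg l).1)).FG :=
    ⟨Set.toFinset (Set.range fun l => Units.mk0 (g l) (hg l).1), by simp⟩
  have halg : ∀ γ ∈ Subgroup.closure (Set.range fun l => Units.mk0 (g l) (hg l).1),
      IsAlgebraic ℚ ((γ : ℂˣ) : ℂ) := by
    intro γ hγ
    induction hγ using Subgroup.closure_induction with
    | mem u hu =>
      obtain ⟨l, rfl⟩ := hu
      exact (hg l).2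
    | one => simpa using isAlgebraic_one
    | mul u v _ _ hu hv =>
      rw [Units.val_mul]
      exact hu.mul hv
    | inv u _ hu =>
      rw [Units.val_inv_eq_inv_val]
      exact hu.inv
  obtain ⟨M, iF, iN, iG, S, φ, ζ, hS, hζ, hΓ⟩ := Helper45.SUBK.field_exists hSVB _ hfg halg
  obtain ⟨h1, h2, h3, h4, h5, h6, h7, h8, h9, h10, h11, h12⟩ := hSVB M
  have hex : ∀ l, ∃ ρ : M, SV S ρ ∧ (φ ρ) ^ 6 = g l := fun l =>
    hΓ _ (Subgroup.subset_closure ⟨l, rfl⟩)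
  choose ρ hρS hρ using hex
  obtain ⟨κ2, hκ2, C2, hC2⟩ := hTB M S φ k t ρ ε (2 * δ) η (6 * B) hS hρS hε (by linarith)
    (by linarith) hη
  obtain ⟨κ3, hκ3, C3, hC3⟩ := hTC M S φ ζ k t ρ ε (3 * δ) η (6 * B) hS hρS hζ hε (by linarith)
    (by linarith) hη
  have hSVm : ∀ (m : ℤ) (e : Fin k → ℤ), SV S (∏ l, ρ l ^ (m * e l)) := fun m e =>
    h9 S (Fin k) Finset.univ _ fun l _ => h8 S _ _ (hρS l)
  have hr6 : ∀ e : Fin k → ℤ, φ (∏ l, ρ l ^ (6 * e l)) = ∏ l, g l ^ e l := by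
    intro e
    have := mon_root φ g ρ hρ 6 1 (by norm_num) e
    rwa [pow_one] at this
  have hr3 : ∀ e : Fin k → ℤ, φ (∏ l, ρ l ^ (3 * e l)) ^ 2 = ∏ l, g l ^ e l :=
    mon_root φ g ρ hρ 3 2 (by norm_num)
  have hr2 : ∀ e : Fin k → ℤ, φ (∏ l, ρ l ^ (2 * e l)) ^ 3 = ∏ l, g l ^ e l :=
    mon_root φ g ρ hρ 2 3 (by norm_num)
  set κ : ℝ := min κ2 κ3 with hκd
  have hκ : 0 < κ := lt_min hκ2 hκ3
  refine ⟨κ, hκ, max C2 C3, ?_⟩
  intro x y hxy hne
  rcases hxy with ⟨e₀, e, c, hc, hsm, hx, hZ⟩ | ⟨e₀, e, c, hc, hsm, hy, hZ⟩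
  · have e0 : φ ((∏ l, ρ l ^ (3 * e₀ l)) ^ 2 + ∑ i, (c i : M) * ∏ l, ρ l ^ (6 * e i l))
        = ∏ l, g l ^ e₀ l + ∑ i, (c i : ℂ) * ∏ l, g l ^ e i l := by
      rw [map_add, map_sum, map_pow, hr3]
      congr 1
      exact Finset.sum_congr rfl fun i _ => by rw [map_mul, map_intCast, hr6]
    have := hC2 (∏ l, ρ l ^ (3 * e₀ l)) c (fun i => ∏ l, ρ l ^ (6 * e i l)) x y (hSVm 3 e₀)
      (fun i => hSVm 6 (e i)) (fun i => (hc i).trans (pow_le_int hκ (min_le_left _ _) x))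
      (by
        intro i
        rw [map_mul, map_intCast, hr6]
        refine (hsm i).trans (le_of_eq ?_)
        have e3 : ‖∏ l, g l ^ e₀ l‖ = ‖φ (∏ l, ρ l ^ (3 * e₀ l))‖ ^ (2 : ℝ) := by
          rw [← hr3, Real.rpow_two, norm_pow]
        rw [e3, ← Real.rpow_mul (norm_nonneg _)]
        congr 1
        ring)
      (by
        rw [e0]
        exact hx)
      (by
        rcases hZ with ⟨z, hz⟩ | ⟨hb0, hb⟩
        · refine Or.inl ⟨z, φ.injective ?_⟩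
          rw [e0, map_intCast]
          exact hz
        · exact Or.inr ⟨he_mon ρ 3 (by norm_num) (by norm_num) e₀ hb0, fun i =>
            he_mon ρ 6 (by norm_num) (by norm_num) (e i) (hb i)⟩)
      hne
    linarith [le_max_left C2 C3]
  · have e0 : φ ((∏ l, ρ l ^ (2 * e₀ l)) ^ 3 + ∑ i, (c i : M) * ∏ l, ρ l ^ (6 * e i l))
        = ∏ l, g l ^ e₀ l + ∑ i, (c i : ℂ) * ∏ l, g l ^ e i l := by
      rw [map_add, map_sum, map_pow, hr2]
      congr 1
      exact Finset.sum_congr rfl fun i _ => by rw [map_mul, map_intCast, hr6]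
    have := hC3 (∏ l, ρ l ^ (2 * e₀ l)) c (fun i => ∏ l, ρ l ^ (6 * e i l)) x y (hSVm 2 e₀)
      (fun i => hSVm 6 (e i)) (fun i => (hc i).trans (pow_le_int hκ (min_le_right _ _) y))
      (by
        intro i
        rw [map_mul, map_intCast, hr6]
        refine (hsm i).trans (le_of_eq ?_)
        have e3 : ‖∏ l, g l ^ e₀ l‖ = ‖φ (∏ l, ρ l ^ (2 * e₀ l))‖ ^ (3 : ℝ) := by
          rw [← hr2, show (3 : ℝ) = ((3 : ℕ) : ℝ) by norm_num, Real.rpow_natCast, norm_pow]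
        rw [e3, ← Real.rpow_mul (norm_nonneg _)]
        congr 1
        ring)
      (by
        rw [e0]
        exact hy)
      (by
        rcases hZ with ⟨z, hz⟩ | ⟨hb0, hb⟩
        · refine Or.inl ⟨z, φ.injective ?_⟩
          rw [e0, map_intCast]
          exact hz
        · exact Or.inr ⟨he_mon ρ 2 (by norm_num) (by norm_num) e₀ hb0, fun i =>
            he_mon ρ 6 (by norm_num) (by norm_num) (e i) (hb i)⟩)
      hne
    linarith [le_max_right C2 C3]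

end Pool.Agent.Helper27.JN
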