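import Pool.Agent.Helper71.JN.SheetE
import Pool.Agent.Helper66.JN.HEART
import Pool.Agent.Helper2.JN.IZK
import Pool.Agent.Helper99.JN.APX

/-!
Project JN, row HEARTW from ALGW, ABSV, TRW, ZW, PRIM and RK.
-/

set_option autoImplicit false

namespace Pool.Agent.Helper27.JN

open Pool.Agent.Helper71.JN Polynomial

/-- (HEARTW) -/
theorem HEARTW (hALG : ST_ALGW) (hABS : ST_ABSV) (hTRW : ST_TRW) (hZW : ST_ZW)
    (hPRIM : ST_PRIM) (hRK : ST_RK) : ST_HEARTW := by
  intro F Ω _ _ _ _ I _ r D J α β x y R H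
  have hx : IsIntegral D.K x := hALG F Ω I r D J α β x y R H
  choose v hv1 hv2 hv3 using fun i => hABS F Ω I r D i
  have hch : CharZero D.K := by
    refine ⟨fun a b hab => ?_⟩
    have h1 : ((a : D.K) : Ω) = ((b : D.K) : Ω) := by rw [hab]
    have h2 : (a : Ω) = (b : Ω) := by simpa using h1
    exact Nat.cast_injective h2
  obtain ⟨d, hd⟩ : ∃ d : D.K, (d : Ω) = y ^ 2 - x ^ 3 := ⟨⟨_, H.dK⟩, rfl⟩
  have hd0 : d ≠ 0 := by
    rintro rfl
    exact H.d0 hd.symm
  have hyx : y ^ 2 = x ^ 3 + algebraMap D.K Ω d := by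
    change y ^ 2 = x ^ 3 + (d : Ω)
    rw [hd]
    ring
  have hy : IsIntegral D.K y := by
    refine IsIntegral.of_pow (n := 2) (by norm_num) ?_
    rw [hyx]
    exact (hx.pow 3).add isIntegral_algebraMap
  have hne : Nonempty {i // i ∈ J} := by
    obtain ⟨i, hi⟩ := H.hJ
    exact ⟨⟨i, hi⟩⟩
  obtain ⟨X, Y, hXY, hs⟩ := hTRW D.K Ω (AlgebraicClosure D.K) x y d {i // i ∈ J}
    (fun i => v i) (fun i => ⟨R i, H.RR i i.2⟩) hx hd0 hyx (fun i a b => hv1 i a b)
    (by
      intro i q hq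
      have h1 : (q : AlgebraicClosure D.K) = algebraMap D.K (AlgebraicClosure D.K) (q : D.K) :=
        (map_ratCast _ q).symm
      rw [h1, hv2]
      have h2 : (((q : ℚ) : D.K) : Ω) = (q : Ω) := map_ratCast (algebraMap D.K Ω) q
      rw [h2]
      exact Helper99.JN.nu_rat D i q hq)
    (by
      intro i
      rw [hv2]
      exact H.s1 i i.2)
    (by
      intro i a ha
      have h1 : v i a ≤ D.nu i (x - R i ^ 2) := by
        refine hv3 i _ ?_ ?_ a ha
        · exact Helper2.JN.den_sub hRK (Helper2.JN.den_O H.xO)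
            (Helper2.JN.den_K hRK (pow_mem (H.RR i i.2) 2))
        · exact hx.sub (isIntegral_algebraMap (x := (⟨R i, H.RR i i.2⟩ : D.K) ^ 2))
      refine h1.trans_lt ((H.s2 i i.2).trans_lt (Real.exp_lt_exp.2 ?_))
      linarith [H.hβ])
    (by
      intro i a ha
      have h1 : v i a ≤ D.nu i (y - R i ^ 3) := by
        refine hv3 i _ ?_ ?_ a ha
        · exact Helper2.JN.den_sub hRK (Helper2.JN.den_O H.yO)
            (Helper2.JN.den_K hRK (pow_mem (H.RR i i.2) 3))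
        · exact hy.sub (isIntegral_algebraMap (x := (⟨R i, H.RR i i.2⟩ : D.K) ^ 3))
      exact h1.trans_lt (H.s4 i i.2))
  have hdO : y ^ 2 - x ^ 3 ∈ D.O := sub_mem (pow_mem H.yO 2) (pow_mem H.xO 3)
  have hdR : y ^ 2 - x ^ 3 ∈ D.R := Helper66.JN.mem_R_of_PRIM hPRIM D _ hdO H.dK
  refine hZW F Ω I r D J α X Y (y ^ 2 - x ^ 3) H.hJ H.hα X.2 Y.2 hdR H.d0 ?_ ?_ ?_
  · rw [← hd]
    have := congrArg (fun z : D.K => (z : Ω)) hXY
    simpa using this
  · intro i hi
    have h1 := hs ⟨i, hi⟩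
    rw [hv2, hv2] at h1
    exact ⟨h1.1, h1.2, H.sd i hi⟩
  · intro i hi
    rw [sub_eq_add_neg]
    refine (D.ult i _ _).trans (max_le ?_ ?_)
    · rw [map_pow]
      exact pow_le_one₀ (apply_nonneg _ _) (H.fy i hi)
    · rw [(D.nu i).map_neg, map_pow]
      exact pow_le_one₀ (apply_nonneg _ _) (H.fx i hi)

end Pool.Agent.Helper27.JN
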