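import Mathlib

/-!
Project JN, piece P2c of row PRIM: the limits in the counting argument.
-/

set_option autoImplicit false

namespace Pool.Agent.Helper27.JN

open Filter Topology

/-- the counting inequality in the limit `T → ∞`, then `N → ∞` -/
theorem lim_count {r n : ℕ} (Dg : Fin r → ℕ) (x y : ℝ) (_hy : 0 ≤ y)
    (h : ∀ N T : ℕ, n ≤ N → (∀ j, Dg j ≤ T) →
      x * ((∏ j, ((T : ℝ) - Dg j)) * (N - n))
        ≤ y * ((T : ℝ) ^ r * (N * (N - 1) / 2)
          - (∏ j, ((T : ℝ) - Dg j)) * ((N - n) * (N - n - 1) / 2))) : x ≤ n * y := by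
  have hp : Tendsto (fun T : ℕ => ∏ j, (((T : ℝ) - Dg j) / T)) atTop (𝓝 1) := by
    have h1 : Tendsto (fun T : ℕ => ∏ j : Fin r, (((T : ℝ) - Dg j) / T)) atTop
        (𝓝 (∏ _j : Fin r, (1 : ℝ))) := by
      refine tendsto_finsetProd _ fun j _ => ?_
      have h2 : Tendsto (fun T : ℕ => (1 : ℝ) - (Dg j : ℝ) / T) atTop (𝓝 (1 - 0)) :=
        tendsto_const_nhds.sub (tendsto_const_div_atTop_nhds_zero_nat (Dg j : ℝ))
      rw [sub_zero] at h2
      refine h2.congr' ?_
      filter_upwards [eventually_gt_atTop 0] with T hT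
      have hT' : (T : ℝ) ≠ 0 := by positivity
      field_simp
    simpa using h1
  -- the limit `T → ∞`
  have hN : ∀ N : ℕ, n ≤ N → x * ((N : ℝ) - n) ≤ y * (n * N - n * (n + 1) / 2) := by
    intro N hN
    have e1 : Tendsto (fun T : ℕ => x * ((∏ j, (((T : ℝ) - Dg j) / T)) * ((N : ℝ) - n))) atTop
        (𝓝 (x * (1 * ((N : ℝ) - n)))) := (hp.mul_const _).const_mul _
    have e2 : Tendsto (fun T : ℕ => y * ((N : ℝ) * (N - 1) / 2
        - (∏ j, (((T : ℝ) - Dg j) / T)) * (((N : ℝ) - n) * (N - n - 1) / 2))) atTop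
        (𝓝 (y * ((N : ℝ) * (N - 1) / 2 - 1 * (((N : ℝ) - n) * (N - n - 1) / 2)))) :=
      (tendsto_const_nhds.sub (hp.mul_const _)).const_mul _
    have e3 := le_of_tendsto_of_tendsto e1 e2 (by
      filter_upwards [eventually_gt_atTop 0, eventually_ge_atTop (∑ j, Dg j)] with T hT hT2
      have hT' : (0 : ℝ) < T := by exact_mod_cast hT
      have h3 := h N T hN (fun j => (Finset.single_le_sum (fun i _ => Nat.zero_le (Dg i))
        (Finset.mem_univ j)).trans hT2)
      have h4 : ∏ j, ((T : ℝ) - Dg j) = (T : ℝ) ^ r * ∏ j, (((T : ℝ) - Dg j) / T) := by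
        rw [Finset.prod_div_distrib, Finset.prod_const, Finset.card_univ, Fintype.card_fin]
        field_simp
      rw [h4] at h3
      have hTr : (0 : ℝ) < (T : ℝ) ^ r := by positivity
      refine le_of_mul_le_mul_left ?_ hTr
      calc (T : ℝ) ^ r * (x * ((∏ j, (((T : ℝ) - Dg j) / T)) * ((N : ℝ) - n)))
          = x * ((T : ℝ) ^ r * (∏ j, (((T : ℝ) - Dg j) / T)) * ((N : ℝ) - n)) := by ring
        _ ≤ _ := h3
        _ = _ := by ring)
    calc x * ((N : ℝ) - n) = x * (1 * ((N : ℝ) - n)) := by ring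
      _ ≤ _ := e3
      _ = _ := by ring
  -- the limit `N → ∞`
  have f1 : Tendsto (fun N : ℕ => x * ((1 : ℝ) - (n : ℝ) / N)) atTop (𝓝 (x * (1 - 0))) :=
    (tendsto_const_nhds.sub (tendsto_const_div_atTop_nhds_zero_nat (n : ℝ))).const_mul _
  have f2 : Tendsto (fun N : ℕ => y * ((n : ℝ) - ((n : ℝ) * (n + 1) / 2) / N)) atTop
      (𝓝 (y * (n - 0))) :=
    (tendsto_const_nhds.sub
      (tendsto_const_div_atTop_nhds_zero_nat ((n : ℝ) * (n + 1) / 2))).const_mul _
  have f3 := le_of_tendsto_of_tendsto f1 f2 (by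
    filter_upwards [eventually_gt_atTop 0, eventually_ge_atTop n] with N hN0 hNn
    have hN' : (0 : ℝ) < N := by exact_mod_cast hN0
    have h5 := hN N hNn
    refine le_of_mul_le_mul_left ?_ hN'
    calc (N : ℝ) * (x * ((1 : ℝ) - (n : ℝ) / N)) = x * ((N : ℝ) - n) := by
          field_simp
      _ ≤ _ := h5
      _ = _ := by
          field_simp)
  calc x = x * (1 - 0) := by ring
    _ ≤ _ := f3
    _ = n * y := by ring

end Pool.Agent.Helper27.JN
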