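import Pool.Agent.Helper71.JN.SheetB

/-!
Project JN, row REL4: `1, x, x ^ 2, y` are linearly dependent over `K`.
-/

set_option autoImplicit false

namespace Pool.Agent.Helper27.JN

open Pool.Agent.Helper71.JN

/-- `R` is contained in `K` -/
theorem mem_K_of_mem_R {F Ω : Type} [Field F] [Field Ω] [Algebra F Ω] {I : Type} [Fintype I]
    {r : ℕ} (D : SSF F Ω I r) {z : Ω} (hz : z ∈ D.R) : z ∈ D.K := by
  have h : D.R ≤ D.K.toSubalgebra := by
    refine Algebra.adjoin_le ?_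
    rintro a (⟨k, rfl⟩ | ⟨k, rfl⟩)
    · exact IntermediateField.subset_adjoin F _ ⟨k, rfl⟩
    · exact D.K.inv_mem (IntermediateField.subset_adjoin F _ ⟨k, rfl⟩)
  exact h hz

/-- multiples of elements of a set by elements of `K` lie in the span -/
theorem mul_mem_span {F Ω : Type} [Field F] [Field Ω] [Algebra F Ω]
    (K : IntermediateField F Ω) {z v : Ω} {s : Set Ω} (hz : z ∈ K) (hv : v ∈ s) :
    z * v ∈ Submodule.span K s := by
  have h := Submodule.smul_mem (Submodule.span K s) (⟨z, hz⟩ : K) (Submodule.subset_span hv)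
  simpa [Algebra.smul_def] using h

/-- an upper bound for a double product -/
theorem prod_lt_one {I : Type} [Fintype I] {n : ℕ} (J : Finset I) (hJ : J.Nonempty)
    (a : I → Fin n → ℝ) (ha : ∀ i k, 0 ≤ a i k) (c : Fin n → ℝ)
    (h1 : ∀ i ∈ J, ∀ k, a i k ≤ Real.exp (c k))
    (h2 : ∀ i, i ∉ J → ∀ k, a i k ≤ 1) (hc : ∑ k, c k < 0) : ∏ i, ∏ k, a i k < 1 := by
  classical
  have h3 : ∀ i, ∏ k, a i k ≤ if i ∈ J then Real.exp (∑ k, c k) else 1 := by
    intro i
    split_ifs with h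
    · rw [Real.exp_sum]
      exact Finset.prod_le_prod (fun k _ => ha i k) (fun k _ => h1 i h k)
    · exact Finset.prod_le_one (fun k _ => ha i k) (fun k _ => h2 i h k)
  have h4 : ∏ i, ∏ k, a i k ≤ ∏ i, if i ∈ J then Real.exp (∑ k, c k) else 1 :=
    Finset.prod_le_prod (fun i _ => Finset.prod_nonneg fun k _ => ha i k) (fun i _ => h3 i)
  refine lt_of_le_of_lt h4 ?_
  rw [Finset.prod_ite_mem, Finset.univ_inter, Finset.prod_const]
  exact pow_lt_one₀ (Real.exp_pos _).le (Real.exp_lt_one_iff.mpr hc) (Finset.card_ne_zero.mpr hJ)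

/-- the generic Subspace theorem in the form of a contradiction -/
theorem gsk_absurd (hGSK : ST_GSK) {F Ω : Type} [Field F] [Field Ω] [Algebra F Ω] {I : Type}
    [Fintype I] {r : ℕ} (D : SSF F Ω I r) (J : Finset I) (hJ : J.Nonempty) (n : ℕ)
    (e : Fin n → Ω) (f : I → Fin n → Ω) (c : Fin n → ℝ) (he : ∀ k, e k ∈ D.O)
    (hli : LinearIndependent D.K e)
    (hf : ∀ i ∈ J, ∀ k, f i k - e k ∈ Submodule.span D.K (e '' {l | l < k}))
    (h1 : ∀ i ∈ J, ∀ k, D.nu i (f i k) ≤ Real.exp (c k))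
    (h2 : ∀ i, i ∉ J → ∀ k, D.nu i (e k) ≤ 1) (hc : ∑ k, c k < 0) : False := by
  classical
  have h := hGSK F Ω I r D n e (fun i k => if i ∈ J then f i k else e k) (fun _ _ => 1) he hli
    (fun _ _ => ⟨D.K.one_mem, one_ne_zero⟩)
    (by
      intro i k
      by_cases hi : i ∈ J
      · simpa [hi] using hf i hi k
      · simp [hi])
  refine absurd h (not_le.mpr (prod_lt_one J hJ _ ?_ c ?_ ?_ hc))
  · intro i k
    exact div_nonneg (apply_nonneg _ _) (apply_nonneg _ _)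
  · intro i hi k
    simpa [hi] using h1 i hi k
  · intro i hi k
    simpa [hi] using h2 i hi k

/-- the approximation `Y2` lies in the span of `1, x, x ^ 2` -/
theorem Y2_expand {Ω : Type} [Field Ω] (x a a' : Ω) :
    Y2 x a a' = (a ^ 3 - 3 / 2 * a ^ 3 + 3 / 8 * a' * a ^ 4) * 1
      + (3 / 2 * a - 3 / 8 * a' * (2 * a ^ 2)) * x + (3 / 8 * a') * x ^ 2 := by
  unfold Y2
  ring

/-- (REL4) -/
theorem REL4 (hAPX : ST_APX) (hGSK : ST_GSK) : ST_REL4 := by
  intro F Ω _ _ _ _ I _ r D J α β x y R R' H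
  obtain ⟨-, -, hY⟩ := hAPX F Ω I r D J α β x y R R' H
  by_contra hno
  have key : ∀ a b c d : D.K, (a : Ω) + (b : Ω) * x + (c : Ω) * x ^ 2 + (d : Ω) * y = 0 →
      a = 0 ∧ b = 0 ∧ c = 0 ∧ d = 0 := by
    intro a b c d h
    by_contra h'
    exact hno ⟨a, b, c, d, h', h⟩
  have hli : LinearIndependent D.K ![1, x, x ^ 2, y] := by
    rw [Fintype.linearIndependent_iff]
    intro g hg
    have h0 : (g 0 : Ω) + (g 1 : Ω) * x + (g 2 : Ω) * x ^ 2 + (g 3 : Ω) * y = 0 := by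
      rw [Fin.sum_univ_four] at hg
      simpa [Algebra.smul_def] using hg
    obtain ⟨a0, a1, a2, a3⟩ := key _ _ _ _ h0
    intro i
    fin_cases i
    · exact a0
    · exact a1
    · exact a2
    · exact a3
  have h2 : (2 : Ω) ∈ D.K := ofNat_mem D.K 2
  have h3 : (3 : Ω) ∈ D.K := ofNat_mem D.K 3
  have h8 : (8 : Ω) ∈ D.K := ofNat_mem D.K 8
  have hβ := H.hβ
  have hm : max α (3 * β) < 3 / 2 := max_lt (by linarith [H.hα]) (by linarith)
  refine gsk_absurd hGSK D J H.hJ 4 ![1, x, x ^ 2, y]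
    (fun i => ![1, x - R i ^ 2, (x - R i ^ 2) ^ 2, y - Y2 x (R i) (R' i)])
    ![0, β, 2 * β, max α (3 * β) - 3] ?_ hli ?_ ?_ ?_ ?_
  · intro k
    fin_cases k
    · exact D.O.one_mem
    · exact H.xO
    · exact pow_mem H.xO 2
    · exact H.yO
  · intro i hi k
    have hR : R i ∈ D.K := mem_K_of_mem_R D (H.RR i hi)
    have hR' : R' i ∈ D.K := mem_K_of_mem_R D (H.RR' i hi)
    have m0 : (1 : Ω) ∈ (![1, x, x ^ 2, y] '' {l : Fin 4 | l < 1}) := ⟨0, by decide, rfl⟩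
    have m1 : (1 : Ω) ∈ (![1, x, x ^ 2, y] '' {l : Fin 4 | l < 2}) := ⟨0, by decide, rfl⟩
    have m2 : x ∈ (![1, x, x ^ 2, y] '' {l : Fin 4 | l < 2}) := ⟨1, by decide, rfl⟩
    have m3 : (1 : Ω) ∈ (![1, x, x ^ 2, y] '' {l : Fin 4 | l < 3}) := ⟨0, by decide, rfl⟩
    have m4 : x ∈ (![1, x, x ^ 2, y] '' {l : Fin 4 | l < 3}) := ⟨1, by decide, rfl⟩
    have m5 : x ^ 2 ∈ (![1, x, x ^ 2, y] '' {l : Fin 4 | l < 3}) := ⟨2, by decide, rfl⟩
    fin_cases k
    · simp
    · have h := mul_mem_span D.K (neg_mem (pow_mem hR 2)) m0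
      have e1 : (x - R i ^ 2) - x = -R i ^ 2 * 1 := by ring
      exact e1 ▸ h
    · have h := Submodule.add_mem _ (mul_mem_span D.K (pow_mem hR 4) m1)
        (mul_mem_span D.K (neg_mem (mul_mem h2 (pow_mem hR 2))) m2)
      have e1 : (x - R i ^ 2) ^ 2 - x ^ 2 = R i ^ 4 * 1 + -(2 * R i ^ 2) * x := by ring
      exact e1 ▸ h
    · have hA : R i ^ 3 - 3 / 2 * R i ^ 3 + 3 / 8 * R' i * R i ^ 4 ∈ D.K :=
        add_mem (sub_mem (pow_mem hR 3) (mul_mem (div_mem h3 h2) (pow_mem hR 3)))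
          (mul_mem (mul_mem (div_mem h3 h8) hR') (pow_mem hR 4))
      have hB : 3 / 2 * R i - 3 / 8 * R' i * (2 * R i ^ 2) ∈ D.K :=
        sub_mem (mul_mem (div_mem h3 h2) hR)
          (mul_mem (mul_mem (div_mem h3 h8) hR') (mul_mem h2 (pow_mem hR 2)))
      have hC : 3 / 8 * R' i ∈ D.K := mul_mem (div_mem h3 h8) hR'
      have h := Submodule.neg_mem _ (Submodule.add_mem _ (Submodule.add_mem _
        (mul_mem_span D.K hA m3) (mul_mem_span D.K hB m4)) (mul_mem_span D.K hC m5))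
      rw [← Y2_expand] at h
      have e1 : (y - Y2 x (R i) (R' i)) - y = -Y2 x (R i) (R' i) := by ring
      exact e1 ▸ h
  · intro i hi k
    fin_cases k
    · simp
    · exact H.s2 i hi
    · change D.nu i ((x - R i ^ 2) ^ 2) ≤ Real.exp (2 * β)
      rw [map_pow, two_mul, Real.exp_add, sq]
      exact mul_le_mul (H.s2 i hi) (H.s2 i hi) (apply_nonneg _ _) (Real.exp_pos _).le
    · exact hY i hi
  · intro i hi k
    fin_cases k
    · simp
    · exact H.fx i hi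
    · change D.nu i (x ^ 2) ≤ 1
      rw [map_pow]
      exact pow_le_one₀ (apply_nonneg _ _) (H.fx i hi)
    · exact H.fy i hi
  · rw [Fin.sum_univ_four]
    change 0 + β + 2 * β + (max α (3 * β) - 3) < 0
    linarith

end Pool.Agent.Helper27.JN
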