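import Pool.Agent.Helper71.JN.SheetD
import Pool.Agent.Helper27.JN.REL4

/-!
Project JN, row REL4K: `1, x, x ^ 2, y` are linearly dependent over `K`.
-/

set_option autoImplicit false

namespace Pool.Agent.Helper27.JN

open Pool.Agent.Helper71.JN

/-- (REL4K) -/
theorem REL4K (hAPX : ST_APXK) (hGSK : ST_GSK) : ST_REL4K := by
  intro F Ω _ _ _ _ I _ r D J α β x y R R' H
  obtain ⟨-, -, hY⟩ := hAPX F Ω I r D J α β x y R R' H
  by_contra hno
  have key : ∀ a b c d : D.K, (a : Ω) + (b : Ω) * x + (c : Ω) * x ^ 2 + (d : Ω) * y = 0 →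
      a = 0 ∧ b = 0 ∧ c = 0 ∧ d = 0 := by
    intro a b c d h
    by_contra h'
    exact hno ⟨a, b, c, d, h', h⟩
  have hli : LinearIndependent D.K ![1, x, x ^ 2, y] := by
    rw [Fintype.linearIndependent_iff]
    intro g hg
    have h0 : (g 0 : Ω) + (g 1 : Ω) * x + (g 2 : Ω) * x ^ 2 + (g 3 : Ω) * y = 0 := by
      rw [Fin.sum_univ_four] at hg
      simpa [Algebra.smul_def] using hg
    obtain ⟨a0, a1, a2, a3⟩ := key _ _ _ _ h0
    intro i
    fin_cases i
    · exact a0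
    · exact a1
    · exact a2
    · exact a3
  have h2 : (2 : Ω) ∈ D.K := ofNat_mem D.K 2
  have h3 : (3 : Ω) ∈ D.K := ofNat_mem D.K 3
  have h8 : (8 : Ω) ∈ D.K := ofNat_mem D.K 8
  have hβ := H.hβ
  have hm : max α (3 * β) < 3 / 2 := max_lt (by linarith [H.hα]) (by linarith)
  refine gsk_absurd hGSK D J H.hJ 4 ![1, x, x ^ 2, y]
    (fun i => ![1, x - R i ^ 2, (x - R i ^ 2) ^ 2, y - Y2 x (R i) (R' i)])
    ![0, β, 2 * β, max α (3 * β) - 3] ?_ hli ?_ ?_ ?_ ?_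
  · intro k
    fin_cases k
    · exact D.O.one_mem
    · exact H.xO
    · exact pow_mem H.xO 2
    · exact H.yO
  · intro i hi k
    have hR : R i ∈ D.K := H.RR i hi
    have hR' : R' i ∈ D.K := H.RR' i hi
    have m0 : (1 : Ω) ∈ (![1, x, x ^ 2, y] '' {l : Fin 4 | l < 1}) := ⟨0, by decide, rfl⟩
    have m1 : (1 : Ω) ∈ (![1, x, x ^ 2, y] '' {l : Fin 4 | l < 2}) := ⟨0, by decide, rfl⟩
    have m2 : x ∈ (![1, x, x ^ 2, y] '' {l : Fin 4 | l < 2}) := ⟨1, by decide, rfl⟩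
    have m3 : (1 : Ω) ∈ (![1, x, x ^ 2, y] '' {l : Fin 4 | l < 3}) := ⟨0, by decide, rfl⟩
    have m4 : x ∈ (![1, x, x ^ 2, y] '' {l : Fin 4 | l < 3}) := ⟨1, by decide, rfl⟩
    have m5 : x ^ 2 ∈ (![1, x, x ^ 2, y] '' {l : Fin 4 | l < 3}) := ⟨2, by decide, rfl⟩
    fin_cases k
    · simp
    · have h := mul_mem_span D.K (neg_mem (pow_mem hR 2)) m0
      have e1 : (x - R i ^ 2) - x = -R i ^ 2 * 1 := by ring
      exact e1 ▸ h
    · have h := Submodule.add_mem _ (mul_mem_span D.K (pow_mem hR 4) m1)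
        (mul_mem_span D.K (neg_mem (mul_mem h2 (pow_mem hR 2))) m2)
      have e1 : (x - R i ^ 2) ^ 2 - x ^ 2 = R i ^ 4 * 1 + -(2 * R i ^ 2) * x := by ring
      exact e1 ▸ h
    · have hA : R i ^ 3 - 3 / 2 * R i ^ 3 + 3 / 8 * R' i * R i ^ 4 ∈ D.K :=
        add_mem (sub_mem (pow_mem hR 3) (mul_mem (div_mem h3 h2) (pow_mem hR 3)))
          (mul_mem (mul_mem (div_mem h3 h8) hR') (pow_mem hR 4))
      have hB : 3 / 2 * R i - 3 / 8 * R' i * (2 * R i ^ 2) ∈ D.K :=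
        sub_mem (mul_mem (div_mem h3 h2) hR)
          (mul_mem (mul_mem (div_mem h3 h8) hR') (mul_mem h2 (pow_mem hR 2)))
      have hC : 3 / 8 * R' i ∈ D.K := mul_mem (div_mem h3 h8) hR'
      have h := Submodule.neg_mem _ (Submodule.add_mem _ (Submodule.add_mem _
        (mul_mem_span D.K hA m3) (mul_mem_span D.K hB m4)) (mul_mem_span D.K hC m5))
      rw [← Y2_expand] at h
      have e1 : (y - Y2 x (R i) (R' i)) - y = -Y2 x (R i) (R' i) := by ring
      exact e1 ▸ h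
  · intro i hi k
    fin_cases k
    · simp
    · exact H.s2 i hi
    · change D.nu i ((x - R i ^ 2) ^ 2) ≤ Real.exp (2 * β)
      rw [map_pow, two_mul, Real.exp_add, sq]
      exact mul_le_mul (H.s2 i hi) (H.s2 i hi) (apply_nonneg _ _) (Real.exp_pos _).le
    · exact hY i hi
  · intro i hi k
    fin_cases k
    · simp
    · exact H.fx i hi
    · change D.nu i (x ^ 2) ≤ 1
      rw [map_pow]
      exact pow_le_one₀ (apply_nonneg _ _) (H.fx i hi)
    · exact H.fy i hi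
  · rw [Fin.sum_univ_four]
    change 0 + β + 2 * β + (max α (3 * β) - 3) < 0
    linarith

end Pool.Agent.Helper27.JN
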