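import Pool.Agent.Helper71.JN.SheetD
import Pool.Agent.Helper2.JN.T1CJ

/-!
Project JN, second alternative of row T1U: `y` is close to the cube of a quotient `p / q`.
-/

set_option autoImplicit false

namespace Pool.Agent.Helper27.JN

open Filter Finset Pool.Agent.Helper70.SUB Pool.Agent.Helper77.SUBK Pool.Agent.Helper70.SUBL
  Pool.Agent.Helper70.SUBW Pool.Agent.Helper71.JN

/-- the second alternative of (T1U) -/
theorem T1U2 (hBRG : ST_BRGK) (hSLW : ST_SLW) (hSPW : ST_SPW) {M : Type} [Field M]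
    [NumberField M] [IsGalois ℚ M] {S : Finset ℕ} (P : PF S M) (φ : Ultrafilter ℕ)
    (ψ : M →+* ℂ) (hP : ∀ z, P.nv none z = ‖ψ z‖) (ζ : M) (x y : ℕ → ℤ) (X : ℕ → ℝ)
    (p q : ℕ → M) (ε η : ℝ) (hS : ∀ p ∈ S, p.Prime) (hζ : ζ ^ 2 + ζ + 1 = 0) (hε : 0 < ε)
    (hη : 0 < η) (hXt : Tendsto X (φ : Filter ℕ) atTop)
    (hxX : ∀ᶠ j in (φ : Filter ℕ), X j ^ 2 = |(x j : ℝ)|) (hp : SpM P φ X p)
    (hq : SpM P φ X q)
    (h : ∀ᶠ j in (φ : Filter ℕ), q j ≠ 0 ∧ y j ^ 2 ≠ x j ^ 3 ∧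
      |((y j ^ 2 - x j ^ 3 : ℤ) : ℝ)| ≤ |(x j : ℝ)| ^ (1 / (2 + ε)) ∧
      ‖(y j : ℂ) - ψ (p j / q j) ^ 3‖ ≤ |(x j : ℝ)| ^ (3 / 4 - η)) : False := by
  classical
  obtain ⟨hSc, -⟩ := hSLW M S P φ X hS hXt
  obtain ⟨p1, p2, p3, p4, p5, p6, p7, p8, p9, p10, p11, p12, p13⟩ := hSPW M S P φ X hS hXt
  have hbig : ∀ a B : ℝ, 0 < a → ∀ᶠ j in (φ : Filter ℕ), B ≤ X j ^ a := fun a B ha =>
    ((tendsto_rpow_atTop ha).comp hXt).eventually_ge_atTop B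
  have hxt : ∀ᶠ j in (φ : Filter ℕ), 2 ≤ |(x j : ℝ)| := by
    filter_upwards [hxX, hXt.eventually_ge_atTop 2] with j h1 h2
    rw [← h1]
    nlinarith
  -- the sizes
  have hsz : ∀ᶠ j in (φ : Filter ℕ), (2 : ℝ) ≤ x j ∧ |(y j : ℝ) ^ 2 - (x j : ℝ) ^ 3| ≤ x j ∧
      (x j : ℝ) ≤ (y j : ℝ) ^ 2 ∧ (y j : ℝ) ^ 2 ≤ (x j : ℝ) ^ 4 := by
    filter_upwards [hxt, h] with j hj h1
    exact Helper2.SUBW.sizes hε hj h1.2.2.1
  -- the constants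
  set η' : ℝ := min η (1 / 4) with hη'
  have hη0 : 0 < η' := lt_min hη (by norm_num)
  have hη1 : η' ≤ η := min_le_left _ _
  have hη4 : η' ≤ 1 / 4 := min_le_right _ _
  have hζφ : ψ ζ ^ 2 + ψ ζ + 1 = 0 := by
    have h1 := congrArg ψ hζ
    rw [map_add, map_add, map_pow, map_one, map_zero] at h1
    exact h1
  have hdist : ∀ᶠ j in (φ : Filter ℕ), ‖((y j : ℝ) : ℂ) - ψ (p j / q j) ^ 3‖ ≤
      X j ^ (3 / 2 - 2 * η') := by
    filter_upwards [h, hxX, hXt.eventually_ge_atTop 2] with j h1 h2 h3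
    have h4 := h1.2.2.2
    rw [← h2, ← Real.rpow_natCast, ← Real.rpow_mul (by linarith)] at h4
    have h5 : X j ^ (((2 : ℕ) : ℝ) * (3 / 4 - η)) ≤ X j ^ (3 / 2 - 2 * η') :=
      Real.rpow_le_rpow_of_exponent_le (by linarith) (by push_cast; linarith)
    refine le_trans (le_of_eq ?_) (h4.trans h5)
    push_cast
    rfl
  have hRsz : ∀ᶠ j in (φ : Filter ℕ), X j / 4 ≤ ‖ψ (p j / q j)‖ := by
    filter_upwards [hdist, hsz, hxX, hXt.eventually_ge_atTop 4] with j h1 h2 h3 h4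
    obtain ⟨g1, g2, g3, g4⟩ := h2
    rw [abs_of_nonneg (by linarith : (0 : ℝ) ≤ x j)] at h3
    have h5 : X j ^ (3 / 2 - 2 * η') ≤ X j ^ (2 : ℝ) :=
      Real.rpow_le_rpow_of_exponent_le (by linarith) (by linarith)
    rw [Real.rpow_two] at h5
    have h7 : X j ^ 3 ≤ 2 * |(y j : ℝ)| := by
      have h8 : 0 ≤ X j ^ 3 := by positivity
      rw [← abs_of_nonneg h8]
      refine abs_le_of_sq_le_sq ?_ (by positivity)
      have h9 : (X j ^ 3) ^ 2 = (x j : ℝ) ^ 3 := by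
        rw [← h3]
        ring
      rw [mul_pow, h9, sq_abs]
      have h10 : 2 * (x j : ℝ) ≤ (x j : ℝ) ^ 3 := by
        nlinarith [mul_nonneg (by linarith : 0 ≤ (x j : ℝ)) (by nlinarith :
          (0 : ℝ) ≤ (x j : ℝ) ^ 2 - 2)]
      linarith [(abs_le.1 g2).1]
    have h8 : |(y j : ℝ)| ≤ ‖ψ (p j / q j)‖ ^ 3 + X j ^ 2 := by
      have h9 : ((y j : ℝ) : ℂ) = ψ (p j / q j) ^ 3 + (((y j : ℝ) : ℂ) - ψ (p j / q j) ^ 3) := by
        ring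
      have h10 : ‖((y j : ℝ) : ℂ)‖ ≤ ‖ψ (p j / q j) ^ 3‖
          + ‖((y j : ℝ) : ℂ) - ψ (p j / q j) ^ 3‖ := by
        conv_lhs => rw [h9]
        exact norm_add_le _ _
      rw [Complex.norm_real, Real.norm_eq_abs, norm_pow] at h10
      linarith
    refine le_of_pow_le_pow_left₀ (n := 3) (by norm_num) (norm_nonneg _) ?_
    have h9 : (X j / 4) ^ 3 = X j ^ 3 / 64 := by ring
    have h10 : X j ^ 2 ≤ X j ^ 3 / 4 := by
      have : X j ^ 3 = X j * X j ^ 2 := by ring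
      nlinarith [sq_nonneg (X j)]
    rw [h9]
    have h11 : 0 ≤ X j ^ 3 := by positivity
    linarith
  have hana : ∀ᶠ j in (φ : Filter ℕ), ∃ i : Fin 3,
      ‖((x j : ℝ) : ℂ) - ψ ζ ^ (i : ℕ) * ψ (p j / q j) ^ 2‖ ≤ X j ^ (1 / 2 - η') := by
    filter_upwards [hsz, hRsz, hdist, hbig η' 6144 hη0, hXt.eventually_ge_atTop 2, hxX]
      with j h1 h2 h3 h4 h5 h6
    rw [abs_of_nonneg (by linarith [h1.1] : (0 : ℝ) ≤ x j)] at h6
    exact Helper2.JN.nearJ (ψ ζ) hζφ hη0 hη4 h5 h4 h6.symm h1.2.1 h2 h3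
  -- the root of unity
  have hidx : ∀ j, ∃ i : Fin 3, (∃ i : Fin 3,
      ‖((x j : ℝ) : ℂ) - ψ ζ ^ (i : ℕ) * ψ (p j / q j) ^ 2‖ ≤ X j ^ (1 / 2 - η')) →
      ‖((x j : ℝ) : ℂ) - ψ ζ ^ (i : ℕ) * ψ (p j / q j) ^ 2‖ ≤ X j ^ (1 / 2 - η') := by
    intro j
    by_cases h : ∃ i : Fin 3, ‖((x j : ℝ) : ℂ) - ψ ζ ^ (i : ℕ) * ψ (p j / q j) ^ 2‖ ≤
      X j ^ (1 / 2 - η')
    · obtain ⟨i, hi⟩ := h
      exact ⟨i, fun _ => hi⟩
    · exact ⟨0, fun h' => absurd h' h⟩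
  choose ι hι using hidx
  obtain ⟨i0, hi0⟩ := Helper2.SUBW.ucon φ ι
  have z3 : ζ ^ 3 = 1 := by linear_combination (ζ - 1) * hζ
  have z3i : ∀ n : ℕ, (ζ ^ n) ^ 3 = 1 := fun n => by rw [← pow_mul, mul_comm, pow_mul, z3, one_pow]
  set z : M := ζ ^ (i0 : ℕ) with hz
  have zz : z ^ 3 = 1 := z3i _
  refine hBRG M S P φ x y X (fun j => z ^ 2 * p j) q (1 / 2 - η') ε 1 hS hε
    (by linarith) (by linarith) one_pos hXt hxX
    (p8 (fun _ => z ^ 2) _ (p6 _ (hSc _)) hp).2 hq ?_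
  filter_upwards [hana, hi0, hdist, hXt.eventually_ge_atTop 2, h] with j h1 h2 h4 h5 hj
  have h6 := hι j h1
  rw [h2] at h6
  refine ⟨hj.1, hj.2.1, hj.2.2.1, ?_, ?_⟩
  · rw [hP]
    refine le_trans (le_of_eq ?_) h6
    congr 1
    have h7 : (z ^ 2 * p j / q j) ^ 2 = z * (p j / q j) ^ 2 := by
      rw [mul_div_assoc]
      linear_combination (z * (p j / q j) ^ 2) * zz
    rw [h7, map_sub, map_mul, map_intCast, hz, map_pow, map_pow]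
    push_cast
    rfl
  · have h7 : (z ^ 2 * p j / q j) ^ 3 = (p j / q j) ^ 3 := by
      rw [mul_div_assoc]
      linear_combination ((p j / q j) ^ 3 * (z ^ 3 + 1)) * zz
    rw [hP, h7, map_sub, map_intCast, map_pow]
    have h8 : X j ^ (3 / 2 - 2 * η') ≤ X j ^ ((3 : ℝ) - 1) :=
      Real.rpow_le_rpow_of_exponent_le (by linarith) (by linarith)
    refine le_trans (le_of_eq ?_) (h4.trans h8)
    push_cast
    rfl

end Pool.Agent.Helper27.JN
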