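import Pool.Agent.Helper71.JN.SheetE
import Pool.Agent.Helper77.JN.IntZ

/-!
Project JN, row ZW: from `INTZ`.
-/

set_option autoImplicit false

namespace Pool.Agent.Helper27.JN

open Pool.Agent.Helper71.JN

theorem ZW : ST_ZW := by
  intro F Ω _ _ _ _ I _ r D J α X Y d hJ hα hX hY hd hd0 heq hs hf
  exact Pool.Agent.Helper77.JN.INTZ D J hJ α hα X Y d hX hY hd hd0 heq
    (fun i hi => (hs i hi).1) (fun i hi => (hs i hi).2.1) (fun i hi => (hs i hi).2.2) hf

end Pool.Agent.Helper27.JN
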